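import Mathlib

/-!
Generating functions of partitions with restricted parts, and coefficientwise non-negativity.
-/

namespace Pool.Agent.TruncTheta

open PowerSeries Finset
open scoped PowerSeries.WithPiTopology

/-- Generating function of partitions all of whose parts satisfy `p`. -/
noncomputable def G (p : ℕ → Prop) [DecidablePred p] : ℤ⟦X⟧ :=
  PowerSeries.mk fun n => ((Nat.Partition.restricted n p).card : ℤ)

/-- All coefficients are non-negative. -/
def NN (f : ℤ⟦X⟧) : Prop := ∀ n, 0 ≤ coeff n f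

theorem NN.add {f g : ℤ⟦X⟧} (hf : NN f) (hg : NN g) : NN (f + g) := fun n => by
  rw [map_add]; exact add_nonneg (hf n) (hg n)

theorem NN.mul {f g : ℤ⟦X⟧} (hf : NN f) (hg : NN g) : NN (f * g) := fun n => by
  rw [coeff_mul]; exact Finset.sum_nonneg fun x _ => mul_nonneg (hf _) (hg _)

theorem NN_X : NN (X : ℤ⟦X⟧) := fun n => by
  rw [coeff_X]; split_ifs <;> norm_num

theorem NN_one : NN (1 : ℤ⟦X⟧) := fun n => by
  rw [coeff_one]; split_ifs <;> norm_num

theorem NN_zero : NN (0 : ℤ⟦X⟧) := fun n => by simp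

theorem NN.pow {f : ℤ⟦X⟧} (hf : NN f) (m : ℕ) : NN (f ^ m) := by
  induction m with
  | zero => simpa using NN_one
  | succ m ih => rw [pow_succ]; exact ih.mul hf

theorem NN_G (p : ℕ → Prop) [DecidablePred p] : NN (G p) := fun n => by
  simp [G]

theorem G_congr {p q : ℕ → Prop} [DecidablePred p] [DecidablePred q]
    (h : ∀ i, 0 < i → (p i ↔ q i)) : G p = G q := by
  unfold G
  congr 1
  funext n
  congr 2
  ext x
  simp only [Nat.Partition.restricted, Finset.mem_filter, Finset.mem_univ, true_and]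
  constructor
  · intro hx i hi; exact (h i (x.parts_pos hi)).1 (hx i hi)
  · intro hx i hi; exact (h i (x.parts_pos hi)).2 (hx i hi)

/-- Removing an allowed part. -/
theorem G_mul (p : ℕ → Prop) [DecidablePred p] (b : ℕ) (hb : 0 < b) (hpb : p b) :
    G p * (1 - X ^ b) = G (fun i => p i ∧ i ≠ b) := by
  have h1 := Nat.Partition.hasProd_powerSeriesMk_card_restricted ℤ p
  have h2 := Nat.Partition.hasProd_powerSeriesMk_card_restricted ℤ (fun i => p i ∧ i ≠ b)
  have h3 : HasProd (fun i : ℕ => if i = b - 1 then (∑' j : ℕ, (X : ℤ⟦X⟧) ^ (b * j)) else 1)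
      (∑' j : ℕ, (X : ℤ⟦X⟧) ^ (b * j)) := hasProd_ite_eq (b - 1) _
  have h4 := h2.mul h3
  have h5 : (fun i => (if p (i + 1) ∧ i + 1 ≠ b then ∑' j : ℕ, (X : ℤ⟦X⟧) ^ ((i + 1) * j) else 1)
      * (if i = b - 1 then (∑' j : ℕ, (X : ℤ⟦X⟧) ^ (b * j)) else 1))
      = fun i => if p (i + 1) then ∑' j : ℕ, (X : ℤ⟦X⟧) ^ ((i + 1) * j) else 1 := by
    funext i
    by_cases hi : i = b - 1
    · have hi' : i + 1 = b := by omega
      rw [if_pos hi, if_neg (by simp [hi']), one_mul, hi', if_pos hpb]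
    · have hi' : i + 1 ≠ b := by omega
      rw [if_neg hi, mul_one]
      simp [hi']
  rw [h5] at h4
  have h6 := h1.unique h4
  have h7 : (∑' j : ℕ, (X : ℤ⟦X⟧) ^ (b * j)) * (1 - X ^ b) = 1 := by
    simp_rw [pow_mul]
    exact PowerSeries.WithPiTopology.tsum_pow_mul_one_sub_of_constantCoeff_eq_zero (by simp [hb.ne'])
  unfold G
  rw [h6, mul_assoc, h7, mul_one]

/-- Distinct parts. -/
theorem tprod_eq_G : (∏' i : ℕ, (1 + (X : ℤ⟦X⟧) ^ (i + 1))) = G (fun i => ¬ 2 ∣ i) := by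
  have h := Nat.Partition.powerSeriesMk_card_restricted_eq_powerSeriesMk_card_countRestricted ℤ
    (m := 2) (by norm_num)
  unfold G
  rw [h, Nat.Partition.powerSeriesMk_card_countRestricted_eq_tprod ℤ (by norm_num)]
  refine tprod_congr fun i => ?_
  simp [Finset.sum_range_succ]

theorem nn1 (p : ℕ → Prop) [DecidablePred p] (b : ℕ) (hb : 0 < b) (hpb : p b) :
    NN (G p * (1 - X ^ b)) := by
  rw [G_mul p b hb hpb]; exact NN_G _

theorem nn2 (p : ℕ → Prop) [DecidablePred p] (b c : ℕ) (hb : 0 < b) (hpb : p b)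
    (hc : 0 < c) (hpc : p c) (hbc : c ≠ b) :
    NN (G p * (1 - X ^ b) * (1 - X ^ c)) := by
  rw [G_mul p b hb hpb, G_mul _ c hc ⟨hpc, hbc⟩]; exact NN_G _

theorem nn3 (p : ℕ → Prop) [DecidablePred p] (b c d : ℕ) (hb : 0 < b) (hpb : p b)
    (hc : 0 < c) (hpc : p c) (hd : 0 < d) (hpd : p d) (hbc : c ≠ b) (hbd : d ≠ b) (hcd : d ≠ c) :
    NN (G p * (1 - X ^ b) * (1 - X ^ c) * (1 - X ^ d)) := by
  rw [G_mul p b hb hpb, G_mul _ c hc ⟨hpc, hbc⟩, G_mul _ d hd ⟨⟨hpd, hbd⟩, hcd⟩]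
  exact NN_G _

/-- Replacing an allowed part `b` by `2 * b`: division by `1 + X ^ b`. -/
theorem G_double (p : ℕ → Prop) [DecidablePred p] (b : ℕ) (hb : 0 < b) (hpb : p b)
    (h2b : ¬ p (2 * b)) :
    G p = (1 + X ^ b) * G (fun i => (p i ∧ i ≠ b) ∨ i = 2 * b) := by
  have h1 := G_mul p b hb hpb
  have h2 := G_mul (fun i => (p i ∧ i ≠ b) ∨ i = 2 * b) (2 * b) (by omega) (Or.inr rfl)
  have h3 : G (fun i => ((p i ∧ i ≠ b) ∨ i = 2 * b) ∧ i ≠ 2 * b) = G (fun i => p i ∧ i ≠ b) := by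
    apply G_congr
    intro i _
    constructor
    · rintro ⟨h | h, h'⟩
      · exact h
      · exact absurd h h'
    · intro h
      refine ⟨Or.inl h, ?_⟩
      rintro rfl
      exact h2b h.1
  rw [h3, ← h1] at h2
  have h4 : (1 - (X : ℤ⟦X⟧) ^ (2 * b)) = (1 + X ^ b) * (1 - X ^ b) := by ring
  rw [h4] at h2
  have h5 : (1 - (X : ℤ⟦X⟧) ^ b) ≠ 0 := by
    intro h
    have := congrArg (coeff 0) h
    simp [hb.ne'] at this
  apply mul_right_cancel₀ h5
  rw [← h2]; ring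

end Pool.Agent.TruncTheta
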