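import Mathlib

/-!
Definitions for the truncated theta series with triangular exponents.
-/

namespace Pool.Agent.TruncTheta

open PowerSeries
open scoped PowerSeries.WithPiTopology

/-- The `n`-th triangular number `T_n = n (n + 1) / 2`. -/
def T (n : ℕ) : ℕ := n * (n + 1) / 2

/-- The series `F_k(q) = ∏_{i ≥ 1} (1 + q^i) · ∑_{n ≥ 0} (-1)^{T_n} q^{T_{n + 2k}}`
as a formal power series with integer coefficients.  The infinite product and the infinite sum
are taken in the topology of coefficientwise convergence. -/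
noncomputable def F (k : ℕ) : ℤ⟦X⟧ :=
  (∏' i : ℕ, (1 + (X : ℤ⟦X⟧) ^ (i + 1))) * ∑' n : ℕ, (-1 : ℤ⟦X⟧) ^ T n * X ^ T (n + 2 * k)

end Pool.Agent.TruncTheta
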