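import Pool.Agent.TruncTheta.Basic

namespace Pool.Agent.TruncTheta

open PowerSeries Finset
open scoped PowerSeries.WithPiTopology

/-- odd parts, with `c` replaced by `2 * c`. -/
def pV (c : ℕ) (i : ℕ) : Prop := (¬ 2 ∣ i ∧ i ≠ c) ∨ i = 2 * c

instance (c : ℕ) : DecidablePred (pV c) := fun i => by unfold pV; infer_instance

def pW (c d : ℕ) (i : ℕ) : Prop := (pV c i ∧ i ≠ d) ∨ i = 2 * d

instance (c d : ℕ) : DecidablePred (pW c d) := fun i => by unfold pW; infer_instance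

noncomputable def D : ℤ⟦X⟧ := G (fun i => ¬ 2 ∣ i)

theorem D_eq_V (c : ℕ) (hc : ¬ 2 ∣ c) : D = (1 + X ^ c) * G (pV c) := by
  unfold D
  rw [G_double (fun i => ¬ 2 ∣ i) c (by omega) hc (by simp)]
  rfl

theorem V_eq_W (c d : ℕ) (hd : ¬ 2 ∣ d) (hcd : d ≠ c) :
    G (pV c) = (1 + X ^ d) * G (pW c d) := by
  rw [G_double (pV c) d (by omega) (Or.inl ⟨hd, hcd⟩) ?_]
  · rfl
  · unfold pV; omega

theorem V_eq_W' (c d : ℕ) (hc : ¬ 2 ∣ c) (hd : ¬ 2 ∣ d) (hcd : d ≠ c) :
    G (pV d) = (1 + X ^ c) * G (pW c d) := by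
  rw [V_eq_W d c hc hcd.symm]
  congr 1
  apply G_congr
  intro i _
  unfold pW pV
  omega

theorem D_eq_W (c d : ℕ) (hc : ¬ 2 ∣ c) (hd : ¬ 2 ∣ d) (hcd : d ≠ c) :
    D = (1 + X ^ c) * (1 + X ^ d) * G (pW c d) := by
  rw [D_eq_V c hc, V_eq_W c d hd hcd]; ring

/-- lower bound function, `k = m + 3` -/
noncomputable def L (m : ℕ) : ℤ⟦X⟧ := G (pV (4 * m + 15)) * (1 - X ^ (2 * m + 6)) - D * (1 - X)

noncomputable def U (m : ℕ) : ℤ⟦X⟧ := G (pV (4 * m + 15)) * (1 - X ^ (2 * m + 6)) + D * (1 - X)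

theorem L_nonneg (m : ℕ) : NN (L m) := by
  have hD := D_eq_V (4 * m + 15) (by omega)
  have e : L m = G (pV (4 * m + 15)) * (1 - X ^ 1) * (1 - X ^ 3) * X ^ 1
      + G (pV (4 * m + 15)) * (1 - X ^ 1) * (1 - X ^ (4 * m + 11)) * X ^ 4
      + G (pV (4 * m + 15)) * (1 - X ^ 1) * X ^ 2
      + G (pV (4 * m + 15)) * (1 - X ^ (2 * m + 3)) * X ^ 3 := by
    unfold L
    rw [hD]
    ring
  rw [e]
  refine NN.add (NN.add (NN.add ?_ ?_) ?_) ?_
  · exact (nn2 _ 1 3 (by omega) (by unfold pV; omega) (by omega) (by unfold pV; omega)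
      (by omega)).mul (NN_X.pow _)
  · exact (nn2 _ 1 (4 * m + 11) (by omega) (by unfold pV; omega) (by omega) (by unfold pV; omega)
      (by omega)).mul (NN_X.pow _)
  · exact (nn1 _ 1 (by omega) (by unfold pV; omega)).mul (NN_X.pow _)
  · exact (nn1 _ (2 * m + 3) (by omega) (by unfold pV; omega)).mul (NN_X.pow _)

theorem step1 (m : ℕ) :
    NN (D * (1 - X ^ (2 * m + 7)) - X ^ (4 * m + 15) * U (m + 1) - L m) := by
  have hD := D_eq_W (4 * m + 15) (4 * m + 19) (by omega) (by omega) (by omega)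
  have hV := V_eq_W (4 * m + 15) (4 * m + 19) (by omega) (by omega)
  have hV' := V_eq_W' (4 * m + 15) (4 * m + 19) (by omega) (by omega) (by omega)
  set W := G (pW (4 * m + 15) (4 * m + 19)) with hW
  have e : D * (1 - X ^ (2 * m + 7)) - X ^ (4 * m + 15) * U (m + 1) - L m
      = W * (1 - X ^ 1) * (1 - X ^ (2 * m + 5)) * X ^ 0
      + W * (1 - X ^ 1) * (1 - X ^ (4 * m + 17)) * X ^ (2 * m + 5)
      + W * (1 - X ^ 1) * (1 - X ^ 3) * (1 - X ^ (6 * m + 27)) * X ^ (2 * m + 6)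
      + W * (1 - X ^ 1) * (1 - X ^ (2 * m + 3)) * (1 - X ^ (6 * m + 27)) * X ^ (2 * m + 9)
      + W * (1 - X ^ 1) * (1 - X ^ 5) * X ^ (4 * m + 12)
      + W * (1 - X ^ 1) * (1 - X ^ (4 * m + 13)) * X ^ (4 * m + 17)
      + W * (1 - X ^ 1) * (1 - X ^ (4 * m + 11)) * X ^ (4 * m + 19)
      + W * (1 - X ^ 1) * (1 - X ^ 3) * (1 - X ^ (2 * m + 7)) * X ^ (6 * m + 25)
      + W * (1 - X ^ 1) * (1 - X ^ (2 * m + 3)) * (1 - X ^ (2 * m + 7)) * X ^ (6 * m + 28)
      + W * (1 - X ^ 1) * (1 - X ^ (2 * m + 9)) * X ^ (10 * m + 40) := by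
    unfold L U
    rw [show 4 * (m + 1) + 15 = 4 * m + 19 by ring, hV', hV, hD]
    ring
  rw [e]
  refine NN.add (NN.add (NN.add (NN.add (NN.add (NN.add (NN.add (NN.add (NN.add
    ?_ ?_) ?_) ?_) ?_) ?_) ?_) ?_) ?_) ?_
  · exact (nn2 _ 1 _ (by omega) (by unfold pW pV; omega) (by omega) (by unfold pW pV; omega)
      (by omega)).mul (NN_X.pow _)
  · exact (nn2 _ 1 _ (by omega) (by unfold pW pV; omega) (by omega) (by unfold pW pV; omega)
      (by omega)).mul (NN_X.pow _)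
  · exact (nn3 _ 1 _ _ (by omega) (by unfold pW pV; omega) (by omega) (by unfold pW pV; omega)
      (by omega) (by unfold pW pV; omega) (by omega) (by omega) (by omega)).mul (NN_X.pow _)
  · exact (nn3 _ 1 _ _ (by omega) (by unfold pW pV; omega) (by omega) (by unfold pW pV; omega)
      (by omega) (by unfold pW pV; omega) (by omega) (by omega) (by omega)).mul (NN_X.pow _)
  · exact (nn2 _ 1 _ (by omega) (by unfold pW pV; omega) (by omega) (by unfold pW pV; omega)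
      (by omega)).mul (NN_X.pow _)
  · exact (nn2 _ 1 _ (by omega) (by unfold pW pV; omega) (by omega) (by unfold pW pV; omega)
      (by omega)).mul (NN_X.pow _)
  · exact (nn2 _ 1 _ (by omega) (by unfold pW pV; omega) (by omega) (by unfold pW pV; omega)
      (by omega)).mul (NN_X.pow _)
  · exact (nn3 _ 1 _ _ (by omega) (by unfold pW pV; omega) (by omega) (by unfold pW pV; omega)
      (by omega) (by unfold pW pV; omega) (by omega) (by omega) (by omega)).mul (NN_X.pow _)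
  · exact (nn3 _ 1 _ _ (by omega) (by unfold pW pV; omega) (by omega) (by unfold pW pV; omega)
      (by omega) (by unfold pW pV; omega) (by omega) (by omega) (by omega)).mul (NN_X.pow _)
  · exact (nn2 _ 1 _ (by omega) (by unfold pW pV; omega) (by omega) (by unfold pW pV; omega)
      (by omega)).mul (NN_X.pow _)

theorem step2 (m : ℕ) :
    NN (U m - D * (1 - X ^ (2 * m + 7)) + X ^ (4 * m + 15) * L (m + 1)) := by
  have hD := D_eq_W (4 * m + 15) (4 * m + 19) (by omega) (by omega) (by omega)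
  have hV := V_eq_W (4 * m + 15) (4 * m + 19) (by omega) (by omega)
  have hV' := V_eq_W' (4 * m + 15) (4 * m + 19) (by omega) (by omega) (by omega)
  set W := G (pW (4 * m + 15) (4 * m + 19)) with hW
  have e : U m - D * (1 - X ^ (2 * m + 7)) + X ^ (4 * m + 15) * L (m + 1)
      = W * (1 - X ^ 1) * (1 - X ^ 3) * X ^ 0
      + W * (1 - X ^ 1) * (1 - X ^ (2 * m + 3)) * X ^ 3
      + W * (1 - X ^ 1) * (1 - X ^ 3) * X ^ (4 * m + 19)
      + W * (1 - X ^ 1) * (1 - X ^ (8 * m + 27)) * X ^ (4 * m + 22)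
      + W * (1 - X ^ 1) * (1 - X ^ 3) * X ^ (6 * m + 22)
      + W * (1 - X ^ 1) * (1 - X ^ (2 * m + 7)) * X ^ (8 * m + 31)
      + W * (1 - X ^ 1) * (1 - X ^ (2 * m + 7)) * X ^ (8 * m + 32)
      + W * (1 - X ^ 1) * (1 - X ^ (2 * m + 7)) * X ^ (8 * m + 33) := by
    unfold L U
    rw [show 4 * (m + 1) + 15 = 4 * m + 19 by ring, hV', hV, hD]
    ring
  rw [e]
  refine NN.add (NN.add (NN.add (NN.add (NN.add (NN.add (NN.add
    ?_ ?_) ?_) ?_) ?_) ?_) ?_) ?_
  all_goals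
    exact (nn2 _ 1 _ (by omega) (by unfold pW pV; omega) (by omega) (by unfold pW pV; omega)
      (by omega)).mul (NN_X.pow _)

/-- bound used for `k = 2` -/
theorem special2 : NN (D * (1 - X ^ 5) - X ^ 11 * U 0) := by
  have hD := D_eq_V 15 (by omega)
  have e : D * (1 - X ^ 5) - X ^ 11 * U 0
      = G (pV 15) * (1 - X ^ 1) * (1 - X ^ 11) * X ^ 0
      + G (pV 15) * (1 - X ^ 3) * (1 - X ^ 11) * X ^ 1
      + G (pV 15) * (1 - X ^ 1) * (1 - X ^ 7) * X ^ 4
      + G (pV 15) * (1 - X ^ 1) * (1 - X ^ 9) * X ^ 17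
      + G (pV 15) * (1 - X ^ 1) * X ^ 18
      + G (pV 15) * (1 - X ^ 1) * X ^ 19 := by
    unfold U
    rw [hD]
    ring
  rw [e]
  refine NN.add (NN.add (NN.add (NN.add (NN.add ?_ ?_) ?_) ?_) ?_) ?_
  · exact (nn2 _ _ _ (by omega) (by unfold pV; omega) (by omega) (by unfold pV; omega)
      (by omega)).mul (NN_X.pow _)
  · exact (nn2 _ _ _ (by omega) (by unfold pV; omega) (by omega) (by unfold pV; omega)
      (by omega)).mul (NN_X.pow _)
  · exact (nn2 _ _ _ (by omega) (by unfold pV; omega) (by omega) (by unfold pV; omega)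
      (by omega)).mul (NN_X.pow _)
  · exact (nn2 _ _ _ (by omega) (by unfold pV; omega) (by omega) (by unfold pV; omega)
      (by omega)).mul (NN_X.pow _)
  · exact (nn1 _ _ (by omega) (by unfold pV; omega)).mul (NN_X.pow _)
  · exact (nn1 _ _ (by omega) (by unfold pV; omega)).mul (NN_X.pow _)

/-- bound used for `k = 1` -/
theorem special1 : NN (D * (1 - X ^ 3) - X ^ 7 * (D * (1 - X ^ 5)) + X ^ 18 * L 0) := by
  have hD := D_eq_V 15 (by omega)
  have e : D * (1 - X ^ 3) - X ^ 7 * (D * (1 - X ^ 5)) + X ^ 18 * L 0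
      = G (pV 15) * (1 - X ^ 1) * (1 - X ^ 5) * (1 - X ^ 7) * ((1 + X) * (1 + X ^ 5))
      + G (pV 15) * (1 - X ^ 1) * (1 - X ^ 7) * X ^ 2
      + G (pV 15) * (1 - X ^ 1) * (1 - X ^ 3) * ((1 + X) * X ^ 15)
      + G (pV 15) * (1 - X ^ 3) * (1 - X ^ 5) * X ^ 19
      + G (pV 15) * (1 - X ^ 1) * (1 - X ^ 7) * ((1 + X ^ 7) * X ^ 19) := by
    unfold L
    rw [hD]
    ring
  rw [e]
  refine NN.add (NN.add (NN.add (NN.add ?_ ?_) ?_) ?_) ?_
  · exact (nn3 _ _ _ _ (by omega) (by unfold pV; omega) (by omega) (by unfold pV; omega)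
      (by omega) (by unfold pV; omega) (by omega) (by omega) (by omega)).mul
      ((NN_one.add NN_X).mul (NN_one.add (NN_X.pow _)))
  · exact (nn2 _ _ _ (by omega) (by unfold pV; omega) (by omega) (by unfold pV; omega)
      (by omega)).mul (NN_X.pow _)
  · exact (nn2 _ _ _ (by omega) (by unfold pV; omega) (by omega) (by unfold pV; omega)
      (by omega)).mul ((NN_one.add NN_X).mul (NN_X.pow _))
  · exact (nn2 _ _ _ (by omega) (by unfold pV; omega) (by omega) (by unfold pV; omega)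
      (by omega)).mul (NN_X.pow _)
  · exact (nn2 _ _ _ (by omega) (by unfold pV; omega) (by omega) (by unfold pV; omega)
      (by omega)).mul ((NN_one.add (NN_X.pow _)).mul (NN_X.pow _))

end Pool.Agent.TruncTheta
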