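import Pool.Agent.TruncTheta.Defs
import Pool.Agent.TruncTheta.Steps

namespace Pool.Agent.TruncTheta

open PowerSeries Finset
open scoped PowerSeries.WithPiTopology

theorem two_T (n : ℕ) : 2 * T n = n * (n + 1) := by
  unfold T
  exact Nat.mul_div_cancel' (Nat.even_mul_succ_self n).two_dvd

theorem T_add_two (n : ℕ) : T (n + 2) = T n + (2 * n + 3) := by
  have h1 := two_T n
  have h2 := two_T (n + 2)
  nlinarith

theorem T_add_one (n : ℕ) : T (n + 1) = T n + (n + 1) := by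
  have h1 := two_T n
  have h2 := two_T (n + 1)
  nlinarith

theorem T_mono : Monotone T := monotone_nat_of_le_succ fun n => by
  rw [T_add_one]; omega

theorem le_T (n : ℕ) : n ≤ T n := by
  induction n with
  | zero => simp
  | succ n ih => rw [T_add_one]; omega

/-- the partial theta factor -/
noncomputable def Th (k : ℕ) : ℤ⟦X⟧ := ∑' n : ℕ, (-1 : ℤ⟦X⟧) ^ T n * X ^ T (n + 2 * k)

theorem coeff_term (n k d : ℕ) :
    coeff d ((-1 : ℤ⟦X⟧) ^ T n * X ^ T (n + 2 * k)) = if d = T (n + 2 * k) then (-1) ^ T n else 0 := by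
  have : ((-1 : ℤ⟦X⟧) ^ T n) = C ((-1 : ℤ) ^ T n) := by simp
  rw [this, coeff_C_mul, coeff_X_pow]
  split_ifs <;> simp

theorem summable_Th (k : ℕ) :
    Summable fun n : ℕ => (-1 : ℤ⟦X⟧) ^ T n * X ^ T (n + 2 * k) := by
  rw [PowerSeries.WithPiTopology.summable_iff_summable_coeff]
  intro d
  refine summable_of_ne_finset_zero (s := Finset.range (d + 1)) fun n hn => ?_
  rw [coeff_term, if_neg]
  intro h
  have := le_T (n + 2 * k)
  simp only [Finset.mem_range, not_lt] at hn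
  omega

theorem Th_rec (k : ℕ) : Th k = X ^ T (2 * k) * (1 - X ^ (2 * k + 1)) - Th (k + 1) := by
  unfold Th
  rw [← (summable_Th k).sum_add_tsum_nat_add 2]
  have h : (fun n : ℕ => (-1 : ℤ⟦X⟧) ^ T (n + 2) * X ^ T (n + 2 + 2 * k))
      = fun n => -((-1 : ℤ⟦X⟧) ^ T n * X ^ T (n + 2 * (k + 1))) := by
    funext n
    rw [T_add_two, show n + 2 + 2 * k = n + 2 * (k + 1) by ring, pow_add]
    have : (-1 : ℤ⟦X⟧) ^ (2 * n + 3) = -1 := by
      rw [show 2 * n + 3 = 2 * (n + 1) + 1 by ring]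
      exact Odd.neg_one_pow ⟨n + 1, by ring⟩
    rw [this]; ring
  rw [h, tsum_neg]
  simp only [Finset.sum_range_succ, Finset.sum_range_zero, zero_add]
  have h0 : T 0 = 0 := rfl
  have h1 : T 1 = 1 := rfl
  rw [h0, h1, add_comm 1 (2 * k), T_add_one]
  ring

theorem coeff_Th_of_lt (k d : ℕ) (hd : d < T (2 * k)) : coeff d (Th k) = 0 := by
  unfold Th
  have h := ((PowerSeries.WithPiTopology.hasSum_iff_hasSum_coeff ℤ).1 (summable_Th k).hasSum) d
  have h2 : (fun n : ℕ => coeff d ((-1 : ℤ⟦X⟧) ^ T n * X ^ T (n + 2 * k))) = fun _ => 0 := by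
    funext n
    rw [coeff_term, if_neg]
    intro h
    have := T_mono (show 2 * k ≤ n + 2 * k by omega)
    omega
  rw [h2] at h
  exact h.unique hasSum_zero

theorem F_eq (k : ℕ) : F k = D * Th k := by
  unfold F D
  rw [tprod_eq_G]
  rfl

theorem F_rec (k : ℕ) : F k = X ^ T (2 * k) * (D * (1 - X ^ (2 * k + 1))) - F (k + 1) := by
  rw [F_eq, F_eq, Th_rec]; ring

theorem coeff_F_of_lt (k d : ℕ) (hd : d < T (2 * k)) : coeff d (F k) = 0 := by
  rw [F_eq, coeff_mul]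
  refine Finset.sum_eq_zero fun x hx => ?_
  rw [Finset.HasAntidiagonal.mem_antidiagonal] at hx
  rw [coeff_Th_of_lt k x.2 (by omega), mul_zero]

theorem coeff_X_mul_of_lt (f : ℤ⟦X⟧) (a d : ℕ) (hd : d < a) : coeff d (X ^ a * f) = 0 := by
  rw [coeff_X_pow_mul', if_neg (by omega)]

theorem bounds (n : ℕ) (j : ℕ) : ∀ m : ℕ, n < T (2 * (m + 3 + j)) →
    coeff n (X ^ T (2 * (m + 3)) * L m) ≤ coeff n (F (m + 3)) ∧
    coeff n (F (m + 3)) ≤ coeff n (X ^ T (2 * (m + 3)) * U m) := by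
  induction j with
  | zero =>
    intro m hm
    rw [add_zero] at hm
    rw [coeff_F_of_lt _ _ hm, coeff_X_mul_of_lt _ _ _ hm, coeff_X_mul_of_lt _ _ _ hm]
    exact ⟨le_refl _, le_refl _⟩
  | succ j ih =>
    intro m hm
    obtain ⟨h1, h2⟩ := ih (m + 1) (by rwa [show m + 1 + 3 + j = m + 3 + (j + 1) by ring])
    have hT : T (2 * (m + 1 + 3)) = T (2 * (m + 3)) + (4 * m + 15) := by
      rw [show 2 * (m + 1 + 3) = 2 * (m + 3) + 2 by ring, T_add_two]; ring
    rw [hT] at h1 h2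
    have hr := F_rec (m + 3)
    rw [show 2 * (m + 3) + 1 = 2 * m + 7 by ring, show m + 3 + 1 = m + 1 + 3 by ring] at hr
    have s1 := ((NN_X.pow (T (2 * (m + 3)))).mul (step1 m)) n
    have s2 := ((NN_X.pow (T (2 * (m + 3)))).mul (step2 m)) n
    rw [hr, map_sub]
    constructor
    · have e : X ^ T (2 * (m + 3)) * (D * (1 - X ^ (2 * m + 7)) - X ^ (4 * m + 15) * U (m + 1) - L m)
          = X ^ T (2 * (m + 3)) * (D * (1 - X ^ (2 * m + 7)))
            - X ^ (T (2 * (m + 3)) + (4 * m + 15)) * U (m + 1) - X ^ T (2 * (m + 3)) * L m := by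
        ring
      rw [e, map_sub, map_sub] at s1
      linarith
    · have e : X ^ T (2 * (m + 3)) * (U m - D * (1 - X ^ (2 * m + 7)) + X ^ (4 * m + 15) * L (m + 1))
          = X ^ T (2 * (m + 3)) * U m - X ^ T (2 * (m + 3)) * (D * (1 - X ^ (2 * m + 7)))
            + X ^ (T (2 * (m + 3)) + (4 * m + 15)) * L (m + 1) := by
        ring
      rw [e, map_add, map_sub] at s2
      linarith

theorem bounds' (m n : ℕ) :
    coeff n (X ^ T (2 * (m + 3)) * L m) ≤ coeff n (F (m + 3)) ∧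
    coeff n (F (m + 3)) ≤ coeff n (X ^ T (2 * (m + 3)) * U m) := by
  refine bounds n n m ?_
  have := le_T (2 * (m + 3 + n))
  omega

theorem F_nonneg (k : ℕ) (hk : 1 ≤ k) (n : ℕ) : 0 ≤ coeff n (F k) := by
  have h3 := bounds' 0 n
  have hT6 : T (2 * (0 + 3)) = 21 := rfl
  have hT4 : T (2 * 2) = 10 := rfl
  have hT2 : T (2 * 1) = 3 := rfl
  rw [hT6, zero_add] at h3
  obtain rfl | rfl | hk3 : k = 1 ∨ k = 2 ∨ 3 ≤ k := by omega
  · have r1 := F_rec 1
    have r2 := F_rec 2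
    rw [hT2] at r1
    rw [hT4] at r2
    norm_num at r1 r2
    have s := ((NN_X.pow 3).mul special1) n
    have e : X ^ 3 * (D * (1 - X ^ 3) - X ^ 7 * (D * (1 - X ^ 5)) + X ^ 18 * L 0)
        = X ^ 3 * (D * (1 - X ^ 3)) - X ^ 10 * (D * (1 - X ^ 5)) + X ^ 21 * L 0 := by ring
    rw [e, map_add, map_sub] at s
    rw [r1, r2, map_sub, map_sub]
    linarith [h3.1]
  · have r2 := F_rec 2
    rw [hT4] at r2
    norm_num at r2
    have s := ((NN_X.pow 10).mul special2) n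
    have e : X ^ 10 * (D * (1 - X ^ 5) - X ^ 11 * U 0)
        = X ^ 10 * (D * (1 - X ^ 5)) - X ^ 21 * U 0 := by ring
    rw [e, map_sub] at s
    rw [r2, map_sub]
    linarith [h3.2]
  · obtain ⟨m, rfl⟩ : ∃ m, k = m + 3 := ⟨k - 3, by omega⟩
    exact le_trans (((NN_X.pow _).mul (L_nonneg m)) n) (bounds' m n).1

end Pool.Agent.TruncTheta
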